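import Mathlib
import Pool.Agent.Helper40.Nil.Stmts

set_option autoImplicit false

namespace Pool.Agent.Helper40.Nil

open Polynomial
open scoped FourierTransform

theorem circ_diff (P : ℝ[X]) : ∃ S : ℝ[X], ∀ n : ℤ,
    S.eval ((n : ℝ) + 1) = S.eval (n : ℝ) + P.eval (n : ℝ) := by
  induction P using Polynomial.induction_on' with
  | add p q hp hq =>
    obtain ⟨S, hS⟩ := hp
    obtain ⟨T, hT⟩ := hq
    refine ⟨S + T, fun n => ?_⟩
    rw [eval_add, eval_add, eval_add, hS n, hT n]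
    ring
  | monomial k a =>
    refine ⟨C (a / ((k : ℝ) + 1)) * (Polynomial.bernoulli (k + 1)).map (algebraMap ℚ ℝ),
      fun n => ?_⟩
    have key : ∀ m : ℤ, ((Polynomial.bernoulli (k + 1)).map (algebraMap ℚ ℝ)).eval (m : ℝ)
        = (((Polynomial.bernoulli (k + 1)).eval (m : ℚ) : ℚ) : ℝ) := by
      intro m
      have := Polynomial.eval₂_at_apply (p := Polynomial.bernoulli (k + 1))
        (algebraMap ℚ ℝ) (m : ℚ)
      rw [eval_map]
      simpa using this
    have h1 := key (n + 1)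
    have h2 := key n
    have h3 := Polynomial.bernoulli_eval_one_add (k + 1) (n : ℚ)
    have h4 : ((n : ℝ) + 1) = ((n + 1 : ℤ) : ℝ) := by push_cast; ring
    have h5 : ((n + 1 : ℤ) : ℚ) = 1 + (n : ℚ) := by push_cast; ring
    rw [eval_mul, eval_C, eval_mul, eval_C, h4, h1, h2, h5, h3, eval_monomial]
    have hk : ((k : ℝ) + 1) ≠ 0 := by positivity
    push_cast
    field_simp

theorem circ_char (z : Circle) : ∃ θ : ℝ, z = 𝐞 θ := by
  refine ⟨Complex.arg z / (2 * Real.pi), ?_⟩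
  rw [Real.fourierChar_apply']
  rw [mul_div_cancel₀ _ (by positivity)]
  exact (Circle.exp_arg z).symm

theorem circ_main (F : ℕ → Subgroup Circle) (s : ℕ) (hs : F s = ⊥) (hF : Antitone F) (j : ℕ) :
    ∀ k : ℕ, s ≤ k + j → ∀ v : ℤ → Circle, Poly F k v →
      ∃ Q : ℝ[X], ∀ n : ℤ, v n = 𝐞 (Q.eval (n : ℝ)) := by
  induction j with
  | zero =>
    intro k hk v hv
    refine ⟨0, fun n => ?_⟩
    have h1 : v n ∈ F k := hv 0 n
    have h2 : v n ∈ F s := hF hk h1
    rw [hs, Subgroup.mem_bot] at h2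
    rw [h2, eval_zero, AddChar.map_zero_eq_one]
  | succ j ih =>
    intro k hk v hv
    have h1 : Poly F (k + 1) (dd (1 : ℤ) v) := fun l => (hv (l + 1)).2 1
    obtain ⟨P, hP⟩ := ih (k + 1) (by omega) _ h1
    obtain ⟨S, hS⟩ := circ_diff P
    obtain ⟨θ, hθ⟩ := circ_char (v 0)
    have hstep : ∀ n : ℤ, v (n + 1) = 𝐞 (P.eval (n : ℝ)) * v n := by
      intro n
      rw [← hP n]
      simp [dd]
    refine ⟨S - C (S.eval 0) + C θ, ?_⟩
    have hQ : ∀ x : ℝ, (S - C (S.eval 0) + C θ).eval x = S.eval x - S.eval 0 + θ := by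
      intro x
      rw [eval_add, eval_sub, eval_C, eval_C]
    intro n
    induction n using Int.induction_on with
    | zero => rw [hQ, Int.cast_zero, sub_self, zero_add]; exact hθ
    | succ n ihn =>
      rw [hstep, ihn, ← AddChar.map_add_eq_mul, hQ, hQ]
      congr 1
      have := hS (n : ℤ)
      push_cast at this ⊢
      rw [this]
      ring
    | pred n ihn =>
      have h2 := hstep (-(n : ℤ) - 1)
      have e : (-(n : ℤ) - 1 + 1) = -(n : ℤ) := by ring
      rw [e, ihn] at h2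
      have h3 : v (-(n : ℤ) - 1) = (𝐞 (P.eval ((-(n : ℤ) - 1 : ℤ) : ℝ)))⁻¹ *
          𝐞 ((S - C (S.eval 0) + C θ).eval ((-(n : ℤ) : ℤ) : ℝ)) := by
        rw [h2, inv_mul_cancel_left]
      rw [h3, ← AddChar.map_neg_eq_inv, ← AddChar.map_add_eq_mul, hQ, hQ]
      congr 1
      have := hS (-(n : ℤ) - 1)
      have e2 : ((-(n : ℤ) - 1 : ℤ) : ℝ) + 1 = ((-(n : ℤ) : ℤ) : ℝ) := by push_cast; ring
      rw [e2] at this
      rw [this]
      ring

theorem st_CIRC : ST_CIRC := by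
  rintro u ⟨F, hF⟩
  obtain ⟨s, hs⟩ := F.len
  obtain ⟨Q, hQ⟩ := circ_main F.F s hs F.anti s 0 (by omega) u hF
  exact ⟨Q, fun n => by rw [hQ n]⟩

end Pool.Agent.Helper40.Nil
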