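import Mathlib
import Pool.Agent.Helper40.Nil.Stmts

set_option autoImplicit false

namespace Pool.Agent.Helper40.Nil

universe u

theorem lcs_three {G : Type u} [Group G] (A B C N : Subgroup G) [N.Normal]
    (h1 : ⁅⁅B, C⁆, A⁆ ≤ N) (h2 : ⁅⁅C, A⁆, B⁆ ≤ N) : ⁅⁅A, B⁆, C⁆ ≤ N := by
  have key : ∀ K : Subgroup G, K ≤ N ↔ K.map (QuotientGroup.mk' N) = ⊥ := by
    intro K
    rw [Subgroup.map_eq_bot_iff, QuotientGroup.ker_mk']
  rw [key, Subgroup.map_commutator, Subgroup.map_commutator] at h1 h2 ⊢
  exact Subgroup.commutator_commutator_eq_bot_of_rotate h1 h2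

theorem lcs_comm (G : Type u) [Group G] (j : ℕ) : ∀ i : ℕ,
    ⁅Subgroup.lowerCentralSeries (⊤ : Subgroup G) i,
      Subgroup.lowerCentralSeries (⊤ : Subgroup G) j⁆ ≤
      Subgroup.lowerCentralSeries (⊤ : Subgroup G) (i + j + 1) := by
  induction j with
  | zero => intro i; exact le_refl _
  | succ j ih =>
    intro i
    rw [Subgroup.commutator_comm, Subgroup.lowerCentralSeries_succ]
    refine lcs_three _ _ _ _ ?_ ?_
    · rw [Subgroup.commutator_comm ⊤, ← Subgroup.lowerCentralSeries_succ]
      refine (ih (i + 1)).trans (le_of_eq ?_)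
      congr 1
      omega
    · have h := Subgroup.commutator_mono (ih i) (le_refl (⊤ : Subgroup G))
      rw [← Subgroup.lowerCentralSeries_succ] at h
      exact h

/-- the filtration by the lower central series -/
def lcsF (G : Type u) [Group G] : ℕ → Subgroup G
  | 0 => ⊤
  | i + 1 => Subgroup.lowerCentralSeries (⊤ : Subgroup G) i

theorem lcsF_normal (G : Type u) [Group G] (i : ℕ) : (lcsF G i).Normal := by
  cases i with
  | zero => unfold lcsF; infer_instance
  | succ i => unfold lcsF; infer_instance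

theorem lcsF_one (G : Type u) [Group G] : lcsF G 1 = ⊤ := rfl

/-- the filtration structure -/
def lcsFilt (G : Type u) [Group G] (h : Group.IsNilpotent G) : Filt G where
  F := lcsF G
  anti := by
    refine antitone_nat_of_succ_le ?_
    intro n
    cases n with
    | zero => exact le_top
    | succ n => exact Subgroup.lowerCentralSeries_antitone _ (Nat.le_succ n)
  comm := by
    intro i j a ha b hb
    cases i with
    | zero =>
      rw [Nat.zero_add]
      exact mul_mem ((lcsF_normal G j).conj_mem b hb a) (inv_mem hb)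
    | succ i =>
      cases j with
      | zero =>
        have h2 := (lcsF_normal G (i + 1)).conj_mem a⁻¹ (inv_mem ha) b
        have h3 := mul_mem ha h2
        have e : a * b * a⁻¹ * b⁻¹ = a * (b * a⁻¹ * b⁻¹) := by simp [mul_assoc]
        rw [e]
        exact h3
      | succ j =>
        have h1 := lcs_comm G j i
        have e : i + 1 + (j + 1) = (i + j + 1) + 1 := by omega
        rw [e]
        apply h1
        exact Subgroup.commutator_mem_commutator ha hb
  len := by
    obtain ⟨n, hn⟩ := Subgroup.nilpotent_iff_lowerCentralSeries.1 h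
    exact ⟨n + 1, hn⟩

theorem lcs_one {D : Type} [AddCommGroup D] {V : Type u} [Group V] (F : ℕ → Subgroup V)
    (l : ℕ) : ∀ k : ℕ, PolyN F l k (fun _ : D => (1 : V)) := by
  induction l with
  | zero => intro k x; exact one_mem _
  | succ l ih =>
    intro k
    refine ⟨fun x => one_mem _, ?_⟩
    intro h
    have e : dd h (fun _ : D => (1 : V)) = fun _ => 1 := by
      funext x; simp [dd]
    rw [e]
    exact ih _

theorem lcs_const {D : Type} [AddCommGroup D] {V : Type u} [Group V] (F : ℕ → Subgroup V)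
    (l k : ℕ) (a : V) (ha : a ∈ F k) : PolyN F l k (fun _ : D => a) := by
  cases l with
  | zero => intro x; exact ha
  | succ l =>
    refine ⟨fun x => ha, ?_⟩
    intro h
    have e : dd h (fun _ : D => a) = fun _ => 1 := by
      funext x; simp [dd]
    rw [e]
    exact lcs_one F l _

theorem lcs_zpow {G : Type u} [Group G] (a : G) :
    Poly (lcsF G) 0 (fun n : ℤ => a ^ n) := by
  intro l
  cases l with
  | zero => intro x; exact Subgroup.mem_top _
  | succ l =>
    refine ⟨fun x => Subgroup.mem_top _, ?_⟩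
    intro h
    have e : dd h (fun n : ℤ => a ^ n) = fun _ => a ^ h := by
      funext x
      simp only [dd]
      rw [add_comm, zpow_add, mul_assoc, mul_inv_cancel, mul_one]
    rw [e]
    exact lcs_const _ l _ _ (Subgroup.mem_top _)

theorem st_LCS (h1 : ST_LEIB.{u}) : ST_LCS.{u} := by
  intro H _ hH a b
  refine ⟨lcsFilt H hH, ?_⟩
  obtain ⟨-, hb⟩ := h1 ℤ H (lcsFilt H hH) 0 (fun n : ℤ => b ^ n) (fun n : ℤ => b ^ n)
    (lcs_zpow b) (lcs_zpow b)
  obtain ⟨hab, -⟩ := h1 ℤ H (lcsFilt H hH) 0 (fun n : ℤ => a ^ n) (fun n : ℤ => (b ^ n)⁻¹)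
    (lcs_zpow a) hb
  have e : (fun n : ℤ => a ^ n * b ^ (-n)) = fun n : ℤ => a ^ n * (b ^ n)⁻¹ := by
    funext n; rw [zpow_neg]
  rw [e]
  exact hab

end Pool.Agent.Helper40.Nil
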